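import Pool.Agent.Y223.G.Stm2

/-!
Project G, wave 2: consequence of the uniqueness property of étale coordinates.
(helper474, for helper223.)
-/

set_option autoImplicit false

namespace Pool.Agent.Y474.G

open IsLocalRing Pool.Agent.W418.LU2 Pool.Agent.Y223.G

/-- the iterates of a ring endomorphism as ring homomorphisms -/
def itr {C : Type} [CommRing C] (σ : C →+* C) : ℕ → (C →+* C)
  | 0 => RingHom.id C
  | i + 1 => (itr σ i).comp σ

theorem itr_apply {C : Type} [CommRing C] (σ : C →+* C) (i : ℕ) (x : C) :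
    itr σ i x = σ^[i] x := by
  induction i generalizing x with
  | zero => rfl
  | succ i ih =>
    rw [Function.iterate_succ_apply]
    exact ih (σ x)

theorem core {O K : Type} [CommRing O] [Field K] [Algebra O K] (A : ℕ → Subalgebra O K) (p : ℕ)
    (C : Subalgebra O K) (hC : C = CC A p) (σ : C →+* C) (t : O → O)
    (ht : ∀ o, σ (algebraMap O C o) = algebraMap O C (t o)) (hle : ∀ i, A i ≤ C)
    (hsur : ∀ i (x : C), (x : K) ∈ A (i + 1) → ∃ y : C, (y : K) ∈ A i ∧ σ y = x)
    (hord : ∀ x, σ^[p] x = x) (Q : Ideal C) (hQ : ∀ c, σ c - c ∈ Q)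
    (r : ℕ) (u : Fin r → A 0)
    (hU : UNQ (A 0) (Q.comap (Subalgebra.inclusion (hle 0) : A 0 →+* C)) u)
    (B : Type) [CommRing B] [IsLocalRing B] [IsNoetherianRing B] (φ : C →+* B)
    (h1 : ∀ c ∈ Q, φ c ∈ maximalIdeal B) (h2 : ∀ c, c ∉ Q → IsUnit (φ c))
    (h3 : ∀ o, φ (algebraMap O C (t o - o)) = 0)
    (h4 : ∀ j a, 1 ≤ a → a < p → φ ((df σ)^[a] (Subalgebra.inclusion (hle 0) (u j))) = 0) :
    ∀ c, φ (σ c - c) = 0 := by
  -- the coefficients
  have hO : ∀ (i : ℕ) (o : O), φ (itr σ i (algebraMap O C o)) = φ (algebraMap O C o) := by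
    intro i
    induction i with
    | zero => intro o; rfl
    | succ i ih =>
      intro o
      have e1 : itr σ (i + 1) (algebraMap O C o) = itr σ i (algebraMap O C (t o)) := by
        show itr σ i (σ (algebraMap O C o)) = _
        rw [ht]
      have e2 := h3 o
      rw [map_sub, map_sub, sub_eq_zero] at e2
      rw [e1, ih, e2]
  -- the coordinates
  have hu : ∀ (j : Fin r) (i a : ℕ), a + i < p →
      φ (itr σ i ((df σ)^[a] (Subalgebra.inclusion (hle 0) (u j)))) =
        φ ((df σ)^[a] (Subalgebra.inclusion (hle 0) (u j))) := by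
    intro j i
    induction i with
    | zero => intro a _; rfl
    | succ i ih =>
      intro a ha
      have e1 : σ ((df σ)^[a] (Subalgebra.inclusion (hle 0) (u j))) =
          (df σ)^[a] (Subalgebra.inclusion (hle 0) (u j)) +
            (df σ)^[a + 1] (Subalgebra.inclusion (hle 0) (u j)) := by
        rw [Function.iterate_succ_apply']
        unfold df
        ring
      show φ (itr σ i (σ ((df σ)^[a] (Subalgebra.inclusion (hle 0) (u j))))) = _
      rw [e1, map_add, map_add, ih a (by omega), ih (a + 1) (by omega), h4 j (a + 1) (by omega)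
        (by omega), add_zero]
  -- residues
  have hres : ∀ (i : ℕ) (c : C), itr σ i c - c ∈ Q := by
    intro i
    induction i with
    | zero =>
      intro c
      show c - c ∈ Q
      rw [sub_self]
      exact Q.zero_mem
    | succ i ih =>
      intro c
      have e1 : itr σ (i + 1) c - c = (itr σ i (σ c) - σ c) + (σ c - c) := by
        show itr σ i (σ c) - c = _
        ring
      rw [e1]
      exact Q.add_mem (ih (σ c)) (hQ c)
  set ι : A 0 →+* C := (Subalgebra.inclusion (hle 0) : A 0 →+* C) with hι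
  set f : ℕ → (A 0 →+* B) := fun i => (φ.comp (itr σ i)).comp ι with hf
  have hfa : ∀ i a, f i a = φ (itr σ i (ι a)) := fun i a => rfl
  have hιO : ∀ o : O, ι (algebraMap O (A 0) o) = algebraMap O C o := fun o => rfl
  have hf0 : ∀ i, i < p → f i = f 0 := by
    intro i hi
    refine hU B (f i) (f 0) ?_ ?_ ?_ ?_
    · intro o
      rw [hfa, hfa, hιO, hO, hO]
    · intro j
      exact hu j i 0 (by omega)
    · intro a
      rw [hfa, hfa, ← map_sub]
      refine h1 _ ?_
      exact hres i (ι a)
    · intro a ha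
      rw [hfa]
      refine h2 _ fun h => ha ?_
      rw [Ideal.mem_comap]
      have e1 := Q.sub_mem h (hres i (ι a))
      rw [sub_sub_cancel] at e1
      exact e1
  have hf1 : ∀ i, i ≤ p → f i = f 0 := by
    intro i hi
    rcases Nat.lt_or_ge i p with h | h
    · exact hf0 i h
    · have : i = p := le_antisymm hi h
      subst this
      ext a
      rw [hfa, hfa, itr_apply, hord]
      rfl
  -- iterated surjectivity
  have hs : ∀ (i : ℕ) (x : C), (x : K) ∈ A i → ∃ y : C, (y : K) ∈ A 0 ∧ itr σ i y = x := by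
    intro i
    induction i with
    | zero => intro x hx; exact ⟨x, hx, rfl⟩
    | succ i ih =>
      intro x hx
      obtain ⟨y, hy, rfl⟩ := hsur i x hx
      obtain ⟨z, hz, hzy⟩ := ih y hy
      refine ⟨z, hz, ?_⟩
      rw [itr_apply, Function.iterate_succ_apply', ← itr_apply, hzy]
  have hA : ∀ i, i < p → ∀ x : C, (x : K) ∈ A i → φ (σ x) = φ x := by
    intro i hi x hx
    obtain ⟨y, hy, rfl⟩ := hs i x hx
    have e1 : σ (itr σ i y) = itr σ (i + 1) y := by
      rw [itr_apply, itr_apply, Function.iterate_succ_apply']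
    have e2 : y = ι ⟨(y : K), hy⟩ := rfl
    rw [e1, e2, ← hfa, ← hfa, hf1 (i + 1) hi, hf1 i hi.le]
  -- the equalizer
  let E : Subalgebra O C :=
    { carrier := {c | φ (σ c) = φ c}
      mul_mem' := fun {a b} ha hb => by
        show φ (σ (a * b)) = φ (a * b)
        rw [map_mul, map_mul, map_mul, show φ (σ a) = φ a from ha, show φ (σ b) = φ b from hb]
      add_mem' := fun {a b} ha hb => by
        show φ (σ (a + b)) = φ (a + b)
        rw [map_add, map_add, map_add, show φ (σ a) = φ a from ha, show φ (σ b) = φ b from hb]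
      algebraMap_mem' := fun o => hO 1 o }
  have hle' : C ≤ E.map C.val := by
    conv_lhs => rw [hC]
    unfold CC
    refine iSup_le fun i => ?_
    intro x hx
    refine ⟨⟨x, hle i hx⟩, ?_, rfl⟩
    exact hA i i.2 ⟨x, hle i hx⟩ hx
  intro c
  obtain ⟨c', hc', hcc⟩ := hle' c.2
  have : c' = c := Subtype.ext hcc
  rw [this] at hc'
  rw [map_sub, sub_eq_zero]
  exact hc'

theorem t_UNR : Pool.Agent.Y223.G.S_UNR := by
  intro O K _ _ _ A p hp C hC hN σ t ht hle _ hsur hord Q _ hQ r u hU J hJ1 hJ2 c
  by_cases hJ : J = ⊤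
  · rw [hJ]; exact Submodule.mem_top
  have hNB : IsNoetherianRing (Localization.AtPrime Q) :=
    IsLocalization.isNoetherianRing Q.primeCompl _ hN
  have hnt : Nontrivial (Localization.AtPrime Q ⧸ J) := Ideal.Quotient.nontrivial_iff.2 hJ
  have hloc : IsLocalRing (Localization.AtPrime Q ⧸ J) :=
    IsLocalRing.of_surjective' (Ideal.Quotient.mk J) Ideal.Quotient.mk_surjective
  have hJm : J ≤ maximalIdeal (Localization.AtPrime Q) := IsLocalRing.le_maximalIdeal hJ
  have key := core A p C hC σ t ht hle hsur hord Q hQ r u hU (Localization.AtPrime Q ⧸ J)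
    ((Ideal.Quotient.mk J).comp (algebraMap C (Localization.AtPrime Q))) ?_ ?_ ?_ ?_ c
  · rw [RingHom.comp_apply, Ideal.Quotient.eq_zero_iff_mem] at key
    exact key
  · intro x hx
    rw [mem_maximalIdeal, mem_nonunits_iff]
    intro hu
    obtain ⟨y, hy⟩ := hu.exists_right_inv
    obtain ⟨z, rfl⟩ := Ideal.Quotient.mk_surjective y
    rw [RingHom.comp_apply, ← map_mul, ← map_one (Ideal.Quotient.mk J), Ideal.Quotient.eq] at hy
    have h1 : algebraMap C (Localization.AtPrime Q) x ∈ maximalIdeal (Localization.AtPrime Q) := by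
      rw [← Localization.AtPrime.map_eq_maximalIdeal]
      exact Ideal.mem_map_of_mem _ hx
    have h2 := (maximalIdeal (Localization.AtPrime Q)).sub_mem
      (Ideal.mul_mem_right z _ h1) (hJm hy)
    rw [sub_sub_cancel] at h2
    exact (maximalIdeal.isMaximal _).ne_top ((Ideal.eq_top_iff_one _).2 h2)
  · intro x hx
    rw [RingHom.comp_apply]
    exact (IsLocalization.map_units (Localization.AtPrime Q)
      (⟨x, hx⟩ : Q.primeCompl)).map (Ideal.Quotient.mk J)
  · intro o
    rw [RingHom.comp_apply, Ideal.Quotient.eq_zero_iff_mem]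
    exact hJ1 o
  · intro j a h1 h2
    rw [RingHom.comp_apply, Ideal.Quotient.eq_zero_iff_mem]
    exact hJ2 j a h1 h2

end Pool.Agent.Y474.G
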